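import Pool.Agent.Helper70.MM.Goals
import Pool.Agent.Helper67.MaxMeas.PD

open MeasureTheory Set Metric
open scoped ENNReal RealInnerProductSpace Topology
open Pool.Agent.Results.MP_91ee6f_gt Pool.Agent.Helper70.MM

namespace Pool.Agent.Helper27.MM

/-- The potential of a rotation invariant measure is rotation invariant. -/
lemma potential_invariant {n : ℕ} (w : Measure (En n)) (g : En n ≃ₗᵢ[ℝ] En n)
    (hg : w.map g = w) (x : En n) : potential w (g x) = potential w x := by
  unfold potential
  have hme : MeasurableEmbedding (g : En n → En n) := g.toHomeomorph.measurableEmbedding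
  conv_lhs => rw [← hg]
  rw [hme.integral_map]
  refine integral_congr_ae (Filter.Eventually.of_forall fun y => ?_)
  simp only [LinearIsometryEquiv.dist_map]

/-- The potential of a measure invariant under all rotations is radial. -/
lemma potential_radial {n : ℕ} (w : Measure (En n))
    (hw : ∀ g : En n ≃ₗᵢ[ℝ] En n, w.map g = w) (x x' : En n) (h : ‖x‖ = ‖x'‖) :
    potential w x = potential w x' := by
  have hr := Submodule.reflection_sub h
  rw [← hr]
  exact (potential_invariant w _ (hw _) x).symm

theorem sphu (h1 : SPH1) (h2 : MINP) : SPHU := by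
  intro n hn R hR w hwp hws hw
  obtain ⟨hσp, hσs, -⟩ := h1 n hn R
  have hσs := hσs hR.le
  obtain ⟨-, hc2, -, -⟩ := h2 n hn R hR
  have hwn : ∀ᵐ x ∂w, ‖x‖ = R := by
    rw [ae_iff]
    refine measure_mono_null (fun x hx => ?_) hws
    simpa [mem_sphere_zero_iff_norm] using hx
  obtain ⟨x0, hx0⟩ : ∃ x0 : En n, ‖x0‖ = R := by
    have := hwn.exists
    exact this
  have hc1 : ∀ x : En n, ‖x‖ = R → potential w x = potential w x0 := fun x hx =>
    potential_radial w hw x x0 (hx.trans hx0.symm)
  have b1 : Pool.Agent.Helper67.MaxMeas.bil w w = potential w x0 := by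
    have : ∀ᵐ x ∂w, potential w x = potential w x0 := hwn.mono hc1
    calc Pool.Agent.Helper67.MaxMeas.bil w w = ∫ x, potential w x ∂w := rfl
      _ = ∫ x, potential w x0 ∂w := integral_congr_ae this
      _ = _ := by simp
  have b2 : Pool.Agent.Helper67.MaxMeas.bil w (sphUnif n R) = sphEnergy n R := by
    have : ∀ᵐ x ∂w, potential (sphUnif n R) x = sphEnergy n R := hwn.mono hc2
    calc Pool.Agent.Helper67.MaxMeas.bil w (sphUnif n R)
        = ∫ x, potential (sphUnif n R) x ∂w := rfl
      _ = ∫ x, sphEnergy n R ∂w := integral_congr_ae this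
      _ = _ := by simp
  have b3 : Pool.Agent.Helper67.MaxMeas.bil (sphUnif n R) w = potential w x0 := by
    have : ∀ᵐ x ∂(sphUnif n R), potential w x = potential w x0 := hσs.mono hc1
    calc Pool.Agent.Helper67.MaxMeas.bil (sphUnif n R) w
        = ∫ x, potential w x ∂(sphUnif n R) := rfl
      _ = ∫ x, potential w x0 ∂(sphUnif n R) := integral_congr_ae this
      _ = _ := by simp
  have b4 : Pool.Agent.Helper67.MaxMeas.bil (sphUnif n R) (sphUnif n R) = sphEnergy n R := rfl
  refine Pool.Agent.Helper67.MaxMeas.eq_of_bil_sub_eq_zero w (sphUnif n R) ?_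
  rw [b1, b2, b3, b4]
  ring

end Pool.Agent.Helper27.MM
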